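import Pool.Agent.J4H61.QB.Stm3

/-! Project QB (helper61, MP_a4cf75_mp), piece EZ. -/

set_option autoImplicit false

namespace Pool.Agent.J4H57.QB

open Matrix MeasureTheory
open Pool.Agent.V11219.MomentOp Pool.Agent.J4H61.QB

/-- the Haar probability measure of `U(n)` is right invariant -/
theorem rinv (n : Type) [Fintype n] [DecidableEq n] : (haarU n).IsMulRightInvariant := by
  constructor
  intro g
  have hm : Measurable (fun x : Matrix.unitaryGroup n ℂ => x * g) := measurable_mul_const g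
  have : IsProbabilityMeasure (Measure.map (· * g) (haarU n)) := Measure.isProbabilityMeasure_map hm.aemeasurable
  exact Measure.isHaarMeasure_eq_of_isProbabilityMeasure _ _

lemma integ {n : Type} [Fintype n] [DecidableEq n] {f : Matrix.unitaryGroup n ℂ → ℂ} (hf : Continuous f) :
    Integrable f (haarU n) :=
  hf.integrable_of_hasCompactSupport (HasCompactSupport.of_compactSpace f)

lemma sum_sq {d t : ℕ} (g : Fin d → Fin d → ℂ) :
    ∑ a : Fin t → Fin d, ∑ k : Fin t → Fin d, ∏ s, g (a s) (k s) = (∑ x, ∑ y, g x y) ^ t := by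
  rw [Fintype.sum_pow]
  refine Finset.sum_congr rfl fun a _ => ?_
  rw [Finset.prod_univ_sum, Fintype.piFinset_univ]

lemma pw_mul {d t : ℕ} (X Y : Mat d) (b c : Fin t → Fin d) : ∑ l, pw t X b l * pw t Y l c = pw t (X * Y) b c := by
  unfold pw
  simp only [Matrix.of_apply, Matrix.mul_apply]
  rw [Finset.prod_univ_sum, Fintype.piFinset_univ]
  exact Finset.sum_congr rfl fun l _ => Finset.prod_mul_distrib.symm

lemma pw_cont {d t : ℕ} (a k : Fin t → Fin d) : Continuous fun U : Matrix.unitaryGroup (Fin d) ℂ => pw t (U : Mat d) a k := by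
  unfold pw
  simp only [Matrix.of_apply]
  refine continuous_finsetProd _ fun s _ => ?_
  exact continuous_subtype_val.matrix_elem _ _

lemma star_pw {d t : ℕ} (X : Mat d) (b c : Fin t → Fin d) : star (pw t X b c) = pw t Xᴴ c b := by
  unfold pw
  simp [Matrix.of_apply, Matrix.conjTranspose_apply]

/-- the integrand -/
noncomputable def GG (d t : ℕ) (b c : Fin t → Fin d) (V : Matrix.unitaryGroup (Fin d) ℂ) : ℂ :=
  (Matrix.trace (V : Mat d)) ^ t * pw t (V : Mat d)ᴴ b c

lemma pt {d t : ℕ} (U U' : Matrix.unitaryGroup (Fin d) ℂ) (b c : Fin t → Fin d) :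
    ∑ k, ∑ l, ∑ a, (star (pw t (U : Mat d) a k) * pw t (U : Mat d) b l) * (pw t (U' : Mat d) a k * star (pw t (U' : Mat d) c l)) =
      GG d t b c (U' * U⁻¹) := by
  have h1 : ∑ k, ∑ l, ∑ a, (star (pw t (U : Mat d) a k) * pw t (U : Mat d) b l) * (pw t (U' : Mat d) a k * star (pw t (U' : Mat d) c l)) =
      (∑ a, ∑ k, star (pw t (U : Mat d) a k) * pw t (U' : Mat d) a k) * ∑ l, pw t (U : Mat d) b l * star (pw t (U' : Mat d) c l) := by
    rw [Finset.sum_comm (f := fun a k => star (pw t (U : Mat d) a k) * pw t (U' : Mat d) a k), Finset.sum_mul]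
    refine Finset.sum_congr rfl fun k _ => ?_
    rw [Finset.sum_comm, Finset.sum_mul_sum]
    refine Finset.sum_congr rfl fun a _ => Finset.sum_congr rfl fun l _ => ?_
    ring
  have hU : ((U⁻¹ : Matrix.unitaryGroup (Fin d) ℂ) : Mat d) = (U : Mat d)ᴴ := rfl
  rw [h1]
  unfold GG
  congr 1
  · have h2 : ∀ a k : Fin t → Fin d, star (pw t (U : Mat d) a k) * pw t (U' : Mat d) a k =
        ∏ s, (star ((U : Mat d) (a s) (k s)) * (U' : Mat d) (a s) (k s)) := by
      intro a k
      unfold pw
      simp only [Matrix.of_apply]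
      rw [Finset.prod_mul_distrib]
      congr 1
      simp
    simp_rw [h2]
    rw [sum_sq (fun x y => star ((U : Mat d) x y) * (U' : Mat d) x y)]
    congr 1
    rw [Submonoid.coe_mul, hU]
    simp only [Matrix.trace, Matrix.diag, Matrix.mul_apply, Matrix.conjTranspose_apply]
    exact Finset.sum_congr rfl fun x _ => Finset.sum_congr rfl fun y _ => mul_comm _ _
  · rw [Submonoid.coe_mul, hU, Matrix.conjTranspose_mul, Matrix.conjTranspose_conjTranspose, ← pw_mul]
    exact Finset.sum_congr rfl fun l _ => by rw [star_pw]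

lemma dbl {n : Type} [Fintype n] [DecidableEq n] {ι : Type} [Fintype ι] (f g : ι → Matrix.unitaryGroup n ℂ → ℂ)
    (hf : ∀ i, Continuous (f i)) (hg : ∀ i, Continuous (g i)) :
    ∑ i, (∫ U, f i U ∂(haarU n)) * (∫ U, g i U ∂(haarU n)) = ∫ U, ∫ U', ∑ i, f i U * g i U' ∂(haarU n) ∂(haarU n) := by
  have e1 : ∀ U, ∫ U', ∑ i, f i U * g i U' ∂(haarU n) = ∑ i, f i U * ∫ U', g i U' ∂(haarU n) := by
    intro U
    have hi : ∀ i ∈ Finset.univ, Integrable (fun U' => f i U * g i U') (haarU n) := fun i _ =>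
      (integ (hg i)).const_mul (f i U)
    rw [integral_finsetSum Finset.univ hi]
    exact Finset.sum_congr rfl fun i _ => integral_const_mul _ _
  simp_rw [e1]
  have hi : ∀ i ∈ Finset.univ, Integrable (fun U => f i U * ∫ U', g i U' ∂(haarU n)) (haarU n) := fun i _ =>
    (integ (hf i)).mul_const _
  rw [integral_finsetSum Finset.univ hi]
  exact Finset.sum_congr rfl fun i _ => (integral_mul_const _ _).symm

theorem t_EZ : S_EZ := by
  intro d t
  have := rinv (Fin d)
  ext b c
  have h1 : (∑ k, ∑ l, (Ebar d t k l)ᴴ * Ebar d t k l) b c =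
      ∑ k, ∑ l, ∑ a, (∫ U : Matrix.unitaryGroup (Fin d) ℂ, star (pw t (U : Mat d) a k) * pw t (U : Mat d) b l ∂(haarU (Fin d))) *
        ∫ U : Matrix.unitaryGroup (Fin d) ℂ, pw t (U : Mat d) a k * star (pw t (U : Mat d) c l) ∂(haarU (Fin d)) := by
    rw [Matrix.sum_apply]
    refine Finset.sum_congr rfl fun k _ => ?_
    rw [Matrix.sum_apply]
    refine Finset.sum_congr rfl fun l _ => ?_
    rw [Matrix.mul_apply]
    refine Finset.sum_congr rfl fun a _ => ?_
    rw [Matrix.conjTranspose_apply]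
    unfold Ebar
    simp only [Matrix.of_apply]
    congr 1
    rw [Complex.star_def, ← integral_conj]
    refine integral_congr_ae (Filter.Eventually.of_forall fun U => ?_)
    simp only [map_mul, Complex.star_def, Complex.conj_conj]
  rw [h1]
  have h2 := dbl (n := Fin d) (ι := (Fin t → Fin d) × (Fin t → Fin d) × (Fin t → Fin d))
    (fun x U => star (pw t (U : Mat d) x.2.2 x.1) * pw t (U : Mat d) b x.2.1)
    (fun x U => pw t (U : Mat d) x.2.2 x.1 * star (pw t (U : Mat d) c x.2.1))
    (fun x => (pw_cont x.2.2 x.1).star.mul (pw_cont b x.2.1)) (fun x => (pw_cont x.2.2 x.1).mul (pw_cont c x.2.1).star)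
  simp only [Fintype.sum_prod_type] at h2
  rw [h2]
  simp_rw [pt]
  have h3 : ∀ U : Matrix.unitaryGroup (Fin d) ℂ, ∫ U' : Matrix.unitaryGroup (Fin d) ℂ, GG d t b c (U' * U⁻¹) ∂(haarU (Fin d)) =
      ∫ V : Matrix.unitaryGroup (Fin d) ℂ, GG d t b c V ∂(haarU (Fin d)) := fun U => integral_mul_right_eq_self _ _
  simp_rw [h3]
  rw [integral_const]
  simp only [probReal_univ, one_smul]
  rfl

end Pool.Agent.J4H57.QB
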